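import Pool.Agent.helper57.LQ.SpecB

/-!
# Row TDL of project lq: the Hecke operators and the powers of `tt`
-/

set_option autoImplicit false

open Finset PowerSeries

noncomputable section

namespace Pool.Agent.LQ

private abbrev TDL_i : FF →+* Pool.Agent.EP.KK := HahnSeries.ofPowerSeries ℤ (ZMod 2)

private theorem TDL_zz : ∀ x : ZMod 2, x = 0 ∨ x = 1 := by decide

private theorem TDL_aa : ∀ x : ZMod 2, x + x = 0 := by decide

private theorem TDL_co (f : FF) (M : ℤ) : (TDL_i f).coeff M = if M < 0 then 0 else coeff M.natAbs f :=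
  PowerSeries.coeff_coe f M

/-- The constant coefficient of a product. -/
private theorem TDL_cm (f : FF) (F : Pool.Agent.EP.KK) (N : ℕ) (hN : ∀ n : ℕ, N ≤ n → F.coeff (-(n : ℤ)) = 0) :
    (TDL_i f * F).coeff 0 = ∑ n ∈ range N, coeff n f * F.coeff (-(n : ℤ)) := by
  have hinj : Function.Injective (fun n : ℕ => ((n : ℤ), -(n : ℤ))) := by
    intro a b hab
    have := congrArg Prod.fst hab
    simpa using this
  have e : ∑ n ∈ range N, coeff n f * F.coeff (-(n : ℤ)) =
      ∑ z ∈ (range N).map ⟨fun n : ℕ => ((n : ℤ), -(n : ℤ)), hinj⟩, (TDL_i f).coeff z.1 * F.coeff z.2 := by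
    rw [Finset.sum_map]
    refine Finset.sum_congr rfl fun n _ => ?_
    simp only [Function.Embedding.coeFn_mk]
    rw [TDL_co, if_neg (by omega)]
    simp
  rw [e, HahnSeries.coeff_mul]
  refine Finset.sum_congr_of_eq_on_inter ?_ ?_ ?_
  · rintro ⟨a, b⟩ hz hn
    rw [Finset.mem_addAntidiagonal] at hz
    obtain ⟨h1, h2, h3⟩ := hz
    exfalso
    simp only [HahnSeries.mem_support] at h1 h2
    simp only at h3
    rw [TDL_co] at h1
    by_cases ha : a < 0
    · rw [if_pos ha] at h1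
      exact h1 rfl
    · apply hn
      rw [Finset.mem_map]
      have ea : ((a.toNat : ℕ) : ℤ) = a := Int.toNat_of_nonneg (by omega)
      have eb : b = -((a.toNat : ℕ) : ℤ) := by rw [ea]; omega
      refine ⟨a.toNat, ?_, ?_⟩
      · rw [Finset.mem_range]
        by_contra hc
        apply h2
        rw [eb]
        exact hN _ (by omega)
      · simp only [Function.Embedding.coeFn_mk]
        rw [eb, ea]
  · rintro ⟨a, b⟩ hz hn
    rw [Finset.mem_map] at hz
    obtain ⟨n, -, hz⟩ := hz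
    simp only [Function.Embedding.coeFn_mk, Prod.mk.injEq] at hz
    obtain ⟨rfl, rfl⟩ := hz
    rw [Finset.mem_addAntidiagonal] at hn
    simp only [HahnSeries.mem_support] at hn
    by_contra hc
    apply hn
    exact ⟨left_ne_zero_of_mul hc, right_ne_zero_of_mul hc, by omega⟩
  · intro z _ _
    rfl

private theorem TDL_re (l N : ℕ) (hl : 0 < l) (φ : ℕ → ℕ → ZMod 2) :
    ∑ n ∈ range (l * N), (if l ∣ n then φ n (n / l) else 0) = ∑ m ∈ range N, φ (l * m) m := by
  rw [← Finset.sum_filter]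
  refine Finset.sum_nbij' (fun n => n / l) (fun m => l * m) ?_ ?_ ?_ ?_ ?_
  · intro n hn
    simp only [mem_filter, mem_range] at hn ⊢
    exact Nat.div_lt_of_lt_mul hn.1
  · intro m hm
    simp only [mem_filter, mem_range] at hm ⊢
    exact ⟨Nat.mul_lt_mul_of_pos_left hm hl, dvd_mul_right l m⟩
  · intro n hn
    simp only [mem_filter, mem_range] at hn
    exact Nat.mul_div_cancel' hn.2
  · intro m _
    exact Nat.mul_div_cancel_left m hl
  · intro n hn
    simp only [mem_filter, mem_range] at hn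
    rw [Nat.mul_div_cancel' hn.2]

/-- Hecke operators are adjoint. -/
private theorem TDL_adj (hEXP : EXP_stmt) (l : ℕ) (hl : l.Prime) (f : FF) (F G : Pool.Agent.EP.KK)
    (h : Pool.Agent.EP.IsT l F G) : (TDL_i (T l f) * F).coeff 0 = (TDL_i f * G).coeff 0 := by
  obtain ⟨N', hN'⟩ : ∃ N' : ℕ, ∀ n : ℕ, N' ≤ n → F.coeff (-(n : ℤ)) = 0 := by
    refine ⟨(-(F.order)).toNat + 1, fun n hn => ?_⟩
    apply HahnSeries.coeff_eq_zero_of_lt_order
    omega
  have hl0 : 0 < l := hl.pos
  have hle : ∀ n : ℕ, n ≤ l * n := fun n => Nat.le_mul_of_pos_left n hl0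
  have hdv : ∀ n : ℕ, (if (l : ℤ) ∣ -(n : ℤ) then F.coeff (-(n : ℤ) / l) else 0) =
      if l ∣ n then F.coeff (-((n / l : ℕ) : ℤ)) else 0 := by
    intro n
    by_cases hn : l ∣ n
    · rw [if_pos hn, if_pos ((Int.dvd_neg).mpr (Int.natCast_dvd_natCast.mpr hn))]
      congr 1
      obtain ⟨k, rfl⟩ := hn
      rw [Nat.mul_div_cancel_left k hl0]
      push_cast
      rw [← mul_neg, Int.mul_ediv_cancel_left _ (by exact_mod_cast hl0.ne')]
    · rw [if_neg hn, if_neg]
      intro hc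
      exact hn (Int.natCast_dvd_natCast.mp ((Int.dvd_neg).mp hc))
  have hG : ∀ n : ℕ, G.coeff (-(n : ℤ)) = F.coeff (-((l * n : ℕ) : ℤ)) +
      if l ∣ n then F.coeff (-((n / l : ℕ) : ℤ)) else 0 := by
    intro n
    rw [h (-(n : ℤ)), hdv]
    congr 2
    push_cast
    ring
  rw [TDL_cm (T l f) F (l * N') (fun n hn => hN' n (le_trans (hle N') hn)),
    TDL_cm f G (l * (l * N')) (fun n hn => by
      rw [hG, hN' (l * n) (by have := hle n; have := hle (l * N'); have := hle N'; omega)]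
      by_cases hd : l ∣ n
      · rw [if_pos hd, hN', add_zero]
        have h1 : l * N' ≤ n / l := (Nat.le_div_iff_mul_le hl0).mpr (by rw [mul_comm]; exact hn)
        exact le_trans (hle N') h1
      · rw [if_neg hd, add_zero])]
  have e1 : ∑ n ∈ range (l * N'), coeff n (T l f) * F.coeff (-(n : ℤ)) =
      ∑ n ∈ range (l * N'), coeff (l * n) f * F.coeff (-(n : ℤ)) +
      ∑ m ∈ range N', coeff m f * F.coeff (-((l * m : ℕ) : ℤ)) := by
    rw [← TDL_re l N' hl0 (fun n m => coeff m f * F.coeff (-(n : ℤ))), ← Finset.sum_add_distrib]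
    refine Finset.sum_congr rfl fun n _ => ?_
    rw [hEXP.2.2.2.2.2 l n f hl, add_mul]
    congr 1
    split_ifs
    · rfl
    · rw [zero_mul]
  have e2 : ∑ n ∈ range (l * (l * N')), coeff n f * G.coeff (-(n : ℤ)) =
      ∑ n ∈ range (l * (l * N')), coeff n f * F.coeff (-((l * n : ℕ) : ℤ)) +
      ∑ m ∈ range (l * N'), coeff (l * m) f * F.coeff (-(m : ℤ)) := by
    rw [← TDL_re l (l * N') hl0 (fun n m => coeff n f * F.coeff (-(m : ℤ))), ← Finset.sum_add_distrib]
    refine Finset.sum_congr rfl fun n _ => ?_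
    rw [hG, mul_add]
    congr 1
    split_ifs
    · rfl
    · rw [mul_zero]
  have e3 : ∑ n ∈ range (l * (l * N')), coeff n f * F.coeff (-((l * n : ℕ) : ℤ)) =
      ∑ m ∈ range N', coeff m f * F.coeff (-((l * m : ℕ) : ℤ)) := by
    symm
    apply Finset.sum_subset
    · intro m hm
      rw [mem_range] at hm ⊢
      have := hle (l * N')
      have := hle N'
      omega
    · intro m _ hm2
      rw [mem_range, not_lt] at hm2
      rw [hN' (l * m) (le_trans hm2 (hle m)), mul_zero]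
  rw [e1, e2, e3, add_comm]

private theorem TDL_P (s : ℕ) (hs : 1 ≤ s) : coeff s (Pool.Agent.helper81.PP ^ (24 * s)) = 0 := by
  induction s using Nat.strong_induction_on with
  | _ s ih =>
    have h : Pool.Agent.helper81.PP ^ (24 * s) =
        PowerSeries.expand (2 ^ 3) (pow_ne_zero 3 (by norm_num)) (Pool.Agent.helper81.PP ^ (3 * s)) := by
      rw [← Pool.Agent.helper12.PE.pow_eq_expand, ← pow_mul]
      congr 1
      ring
    rw [h, PowerSeries.coeff_expand]
    split_ifs with h8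
    · obtain ⟨t, rfl⟩ := h8
      have h1 := ih t (by omega) (by omega)
      rw [Nat.mul_div_cancel_left t (by norm_num)]
      rw [show 3 * (2 ^ 3 * t) = 24 * t by ring]
      exact h1
    · rfl

private theorem TDL_w0 (hWM : Pool.Agent.EP.WM_stmt) (r : ℕ) (hr : 1 ≤ r) :
    (Pool.Agent.EP.ww ^ r).coeff 0 = 0 := by
  rw [hWM.1]
  split_ifs with h
  · obtain ⟨⟨s, hs⟩, _⟩ := h
    have hs0 : 0 < s := by omega
    have e1 : r = 24 * s.toNat := by omega
    have e2 : ((0 : ℤ) + (r : ℤ)) / 24 = s := by omega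
    rw [e2]
    rw [show Pool.Agent.helper81.PP ^ r = Pool.Agent.helper81.PP ^ (24 * s.toNat) by rw [← e1]]
    exact TDL_P s.toNat (by omega)
  · rfl

private theorem TDL_vw (hWM : Pool.Agent.EP.WM_stmt) (hTGR : TGR_stmt) : TDL_i tt * Pool.Agent.EP.ww = 1 := by
  have h1 : TDL_i tt = Pool.Agent.EP.vvx := hTGR.2.2.2.2.2
  rw [h1, mul_comm]
  exact hWM.2

private theorem TDL_t0 (d : ℕ) (hd : 1 ≤ d) : coeff 0 (tt ^ d) = 0 := by
  rw [PowerSeries.coeff_zero_eq_constantCoeff_apply, map_pow]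
  have : constantCoeff tt = (0 : ZMod 2) := by
    unfold tt
    simp
  rw [this, zero_pow (by omega)]

private theorem TDL_b (hWM : Pool.Agent.EP.WM_stmt) (hTGR : TGR_stmt) (i j : ℕ) :
    (TDL_i (tt ^ i) * Pool.Agent.EP.ww ^ j).coeff 0 = if i = j then 1 else 0 := by
  rcases le_or_gt i j with hij | hij
  · obtain ⟨d, rfl⟩ := Nat.exists_eq_add_of_le hij
    have e : TDL_i (tt ^ i) * Pool.Agent.EP.ww ^ (i + d) = Pool.Agent.EP.ww ^ d := by
      rw [map_pow, pow_add, ← mul_assoc, ← mul_pow, TDL_vw hWM hTGR, one_pow, one_mul]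
    rw [e]
    rcases Nat.eq_zero_or_pos d with hd | hd
    · subst hd
      simp
    · rw [TDL_w0 hWM d hd, if_neg (by omega)]
  · obtain ⟨d, rfl⟩ := Nat.exists_eq_add_of_le hij.le
    have e : TDL_i (tt ^ (j + d)) * Pool.Agent.EP.ww ^ j = TDL_i (tt ^ d) := by
      rw [map_pow, pow_add, mul_right_comm, ← mul_pow, TDL_vw hWM hTGR, one_pow, one_mul, map_pow]
    rw [e, TDL_co, if_neg (by omega), if_neg (by omega)]
    exact TDL_t0 d (by omega)

private theorem TDL_sp (hWM : Pool.Agent.EP.WM_stmt) (hTGR : TGR_stmt) (i b c : ℕ) (h : ¬ (b ≤ i ∧ i % 24 = c % 24))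
    (G : Pool.Agent.EP.KK) (hG : G ∈ Pool.Agent.TPC.WC b c) : (TDL_i (tt ^ i) * G).coeff 0 = 0 := by
  unfold Pool.Agent.TPC.WC at hG
  induction hG using Submodule.span_induction with
  | mem x hx =>
    obtain ⟨j, hj1, hj2, rfl⟩ := hx
    rw [TDL_b hWM hTGR, if_neg]
    rintro rfl
    exact h ⟨hj1, hj2⟩
  | zero => rw [mul_zero, HahnSeries.coeff_zero]
  | add x y _ _ hx hy => rw [mul_add, HahnSeries.coeff_add, hx, hy, add_zero]
  | smul a x _ hx =>
    rcases TDL_zz a with rfl | rfl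
    · rw [zero_smul, mul_zero, HahnSeries.coeff_zero]
    · rw [one_smul, hx]

private theorem TDL_sm (a : ZMod 2) (f : FF) (F : Pool.Agent.EP.KK) :
    (TDL_i (a • f) * F).coeff 0 = a * (TDL_i f * F).coeff 0 := by
  rcases TDL_zz a with rfl | rfl
  · rw [zero_smul, map_zero, zero_mul, HahnSeries.coeff_zero, zero_mul]
  · rw [one_smul, one_mul]

/-- A series which pairs to zero with all `ww ^ m` is zero. -/
private theorem TDL_nz (hWM : Pool.Agent.EP.WM_stmt) (h : FF) (h0 : coeff 0 h = 0)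
    (hm : ∀ m : ℕ, 1 ≤ m → (TDL_i h * Pool.Agent.EP.ww ^ m).coeff 0 = 0) : h = 0 := by
  classical
  by_contra hne
  have hex : ∃ n, coeff n h ≠ 0 := by
    by_contra hc
    push Not at hc
    exact hne (PowerSeries.ext fun n => by rw [hc n, map_zero])
  have hr := Nat.find_spec hex
  have hlt : ∀ n < Nat.find hex, coeff n h = 0 := fun n hn => not_not.mp (Nat.find_min hex hn)
  set r := Nat.find hex with hrdef
  have hr1 : 1 ≤ r := by
    rcases Nat.eq_zero_or_pos r with h1 | h1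
    · rw [h1] at hr
      exact absurd h0 hr
    · exact h1
  have h1 := hm r hr1
  rw [TDL_cm h (Pool.Agent.EP.ww ^ r) (r + 1) (fun n hn => by
    rw [hWM.1, if_neg]
    rintro ⟨-, h2⟩
    omega), Finset.sum_range_succ, Finset.sum_eq_zero (fun n hn => by
      rw [hlt n (mem_range.mp hn), zero_mul]), zero_add, hWM.1, if_pos ⟨by simp, by simp⟩] at h1
  have e : ((-(r : ℤ) + r) / 24).toNat = 0 := by simp
  rw [e, PowerSeries.coeff_zero_eq_constantCoeff_apply, map_pow] at h1
  rcases mul_eq_zero.mp h1 with h2 | h2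
  · exact hr h2
  · have h3 := eq_zero_of_pow_eq_zero h2
    have h4 := congrArg constantCoeff Pool.Agent.helper81.PP_mul_EE
    rw [map_mul, h3, zero_mul, map_one] at h4
    exact zero_ne_one h4

theorem TDL (hTWD : Pool.Agent.TPC.TWD_stmt) (hWM : Pool.Agent.EP.WM_stmt) (hTGR : TGR_stmt)
    (hEXP : EXP_stmt) : TDL_stmt := by
  intro l hl hl5 i hi
  have hll : l * l % 24 = 1 := by
    have h2 : l % 2 ≠ 0 := by
      intro h
      have := (Nat.prime_dvd_prime_iff_eq Nat.prime_two hl).mp (Nat.dvd_of_mod_eq_zero h)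
      omega
    have h3 : l % 3 ≠ 0 := by
      intro h
      have := (Nat.prime_dvd_prime_iff_eq Nat.prime_three hl).mp (Nat.dvd_of_mod_eq_zero h)
      omega
    have h24 : l % 24 = 1 ∨ l % 24 = 5 ∨ l % 24 = 7 ∨ l % 24 = 11 ∨ l % 24 = 13 ∨ l % 24 = 17 ∨ l % 24 = 19 ∨
        l % 24 = 23 := by omega
    rw [Nat.mul_mod]
    rcases h24 with h | h | h | h | h | h | h | h <;> rw [h]
  have hc : ∀ m : ℕ, 1 ≤ m → (TDL_i (T l (tt ^ i)) * Pool.Agent.EP.ww ^ m).coeff 0 ≠ 0 →
      m ≤ i ∧ m % 24 = l * i % 24 := by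
    intro m hm hne
    obtain ⟨G, hG1, hG2⟩ := hTWD l m hl hl5 hm
    rw [TDL_adj hEXP l hl (tt ^ i) _ G hG2] at hne
    by_contra hcon
    apply hne
    apply TDL_sp hWM hTGR i m (l * m) _ G hG1
    rintro ⟨h1, h2⟩
    apply hcon
    refine ⟨h1, ?_⟩
    have e1 : l * i % 24 = l * (l * m) % 24 := by
      rw [Nat.mul_mod, h2, ← Nat.mul_mod]
    rw [e1, ← mul_assoc, Nat.mul_mod, hll, one_mul, Nat.mod_mod]
  have h0 : coeff 0 (T l (tt ^ i)) = 0 := by
    rw [hEXP.2.2.2.2.2 l 0 _ hl, if_pos (dvd_zero l), Nat.zero_div, mul_zero]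
    exact TDL_aa _
  have key : T l (tt ^ i) + ∑ m ∈ Icc 1 i, (TDL_i (T l (tt ^ i)) * Pool.Agent.EP.ww ^ m).coeff 0 • tt ^ m = 0 := by
    apply TDL_nz hWM
    · rw [map_add, h0, zero_add, map_sum]
      apply Finset.sum_eq_zero
      intro m hm
      rw [map_smul, TDL_t0 m (mem_Icc.mp hm).1, smul_zero]
    · intro m hm
      rw [map_add, add_mul, HahnSeries.coeff_add, map_sum, Finset.sum_mul, HahnSeries.coeff_sum]
      rw [Finset.sum_congr rfl (fun m' _ => by rw [TDL_sm, TDL_b hWM hTGR])]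
      simp only [mul_ite, mul_one, mul_zero]
      rw [Finset.sum_ite_eq']
      split_ifs with hmi
      · exact TDL_aa _
      · rw [add_zero]
        by_contra hne
        exact hmi (mem_Icc.mpr ⟨hm, (hc m hm hne).1⟩)
  have e : T l (tt ^ i) = ∑ m ∈ Icc 1 i, (TDL_i (T l (tt ^ i)) * Pool.Agent.EP.ww ^ m).coeff 0 • tt ^ m := by
    have h2 := congrArg (· + ∑ m ∈ Icc 1 i, (TDL_i (T l (tt ^ i)) * Pool.Agent.EP.ww ^ m).coeff 0 • tt ^ m) key
    simp only [zero_add] at h2
    rw [add_assoc, add_self_FF, add_zero] at h2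
    exact h2
  rw [e]
  apply Submodule.sum_mem
  intro m hm
  rw [mem_Icc] at hm
  by_cases hz : (TDL_i (T l (tt ^ i)) * Pool.Agent.EP.ww ^ m).coeff 0 = 0
  · rw [hz, zero_smul]
    exact Submodule.zero_mem _
  · apply Submodule.smul_mem
    apply Submodule.subset_span
    exact ⟨m, ⟨hm.1, hm.2, (hc m hm.1 hz).2⟩, rfl⟩

end Pool.Agent.LQ
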